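import Pool.Agent.N748.MJ.Fin2

set_option autoImplicit false

/-!
# The full main term, with all lower order terms, of the shifted moments of zeta of every order near the critical line

Let `d = d(T) → 0` with `d log T / (log 1/d)^2 → ∞`. For every integer `k` and every `D > 0` there is `V₀` such that for
all `V ≥ V₀` and all shifts `|a_j|, |b_j| ≤ T^(1/2)`, which may depend on `T`, the mean over `[0, T]` of

`∏_j ζ(1/2 + d + i(t + a_j)) ζ(1/2 + d - i(t + b_j))`   (`2k` factors; `|ζ(1/2 + d + it)|^(2k)` if all shifts vanish),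

over the heights `t` at which no factor exceeds `d^(-V)` in absolute value, differs by at most `d^D` from the diagonal
series `∑_n τ_(-ia)(n) τ_(ib)(n) n^(-1-2d)`, which for vanishing shifts is `∑_n d_k(n)² n^(-1-2d)`, of order `d^(-k²)`.

The theorem SRF of the team library N748.MJ, which had not been handed in, is restated here over Mathlib.
-/

namespace Pool.Agent.Results.MP_112ba8_nt.FullMainTerm

open Filter MeasureTheory Topology Complex

/-- `τ_l(n)`: the sum of `e_1^(l_1) ... e_k^(l_k)` over the factorisations `n = e_1 ... e_k`; it is the number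
`d_k(n)` of these factorisations if all `l_j` vanish -/
noncomputable def tau {k : ℕ} (l : Fin k → ℂ) (n : ℕ) : ℂ :=
  ∑ e ∈ Nat.finMulAntidiag k n, ∏ j, ((e j : ℕ) : ℂ) ^ (l j)

/-- the diagonal series `∑_n τ_(-ia)(n) τ_(ib)(n) n^(-1-2d)` -/
noncomputable def diagonal {k : ℕ} (a b : Fin k → ℝ) (d : ℝ) : ℂ :=
  ∑' n : ℕ, tau (fun j => -(I * (a j : ℂ))) n * tau (fun j => I * (b j : ℂ)) n * (((n : ℝ) ^ (-(1 + 2 * d)) : ℝ) : ℂ)

/-- the product of the `2k` values of zeta at distance `d` from the critical line -/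
noncomputable def Z {k : ℕ} (a b : Fin k → ℝ) (d t : ℝ) : ℂ :=
  ∏ j, riemannZeta (1 / 2 + d + (t + a j) * I) * riemannZeta (1 / 2 + d - (t + b j) * I)

/-- the heights in `[0, T]` at which no factor exceeds `d^(-V)` -/
def regular {k : ℕ} (a b : Fin k → ℝ) (V d T : ℝ) : Set ℝ :=
  {t : ℝ | t ∈ Set.Icc 0 T ∧ ∀ j, ‖riemannZeta (1 / 2 + d + (t + a j) * I)‖ ≤ d ^ (-V) ∧
    ‖riemannZeta (1 / 2 + d - (t + b j) * I)‖ ≤ d ^ (-V)}

theorem result (k : ℕ) (D : ℝ) (hD : 0 < D) : ∃ V₀ : ℝ, ∀ V : ℝ, V₀ ≤ V → ∀ d : ℝ → ℝ,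
    (∀ᶠ T : ℝ in atTop, 0 < d T) → Tendsto d atTop (𝓝 0) →
    Tendsto (fun T : ℝ => d T * Real.log T / Real.log (1 / d T) ^ 2) atTop atTop →
    ∀ a b : ℝ → Fin k → ℝ, (∀ᶠ T : ℝ in atTop, ∀ j, |a T j| ≤ T ^ (1 / 2 : ℝ) ∧ |b T j| ≤ T ^ (1 / 2 : ℝ)) →
    ∀ᶠ T : ℝ in atTop,
      ‖((1 / T : ℝ) : ℂ) * (∫ t in regular (a T) (b T) V (d T) T, Z (a T) (b T) (d T) t) -
        diagonal (a T) (b T) (d T)‖ ≤ d T ^ D := by
  obtain ⟨V₀, hV₀⟩ := Pool.Agent.N748.MJ.srfF k D hD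
  refine ⟨V₀, fun V hV d h0 h1 h2 a b hab => ?_⟩
  filter_upwards [hV₀ V hV d ⟨h0, h1, h2⟩ a b hab] with T hT
  have e1 : regular (a T) (b T) V (d T) T = {t : ℝ | t ∈ Set.Icc 0 T ∧
      ∀ j, Pool.Agent.N748.MG.mz (d T) (t + a T j) ≤ d T ^ (-V) ∧
        Pool.Agent.N748.MG.mz (d T) (t + b T j) ≤ d T ^ (-V)} := by
    unfold regular Pool.Agent.N748.MG.mz
    ext t
    refine and_congr_right fun _ => forall_congr' fun j => ?_
    have e2 : (1 / 2 + (d T : ℂ) + (t + a T j) * I) = Pool.Agent.N748.MG.pw (d T) (t + a T j) := by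
      unfold Pool.Agent.N748.MG.pw
      push_cast
      ring
    rw [e2, Pool.Agent.N748.MJ.SRF.conj_r, RCLike.norm_conj]
  have e3 : diagonal (a T) (b T) (d T) = Pool.Agent.N748.MJ.ZS (a T) (b T) (1 / 2 + d T) := by
    unfold diagonal Pool.Agent.N748.MJ.ZS
    refine tsum_congr fun n => ?_
    have e4 : -(2 * (1 / 2 + d T)) = -(1 + 2 * d T) := by ring
    rw [e4, mul_comm (tau _ n) (tau _ n)]
    rfl
  rw [e1, e3]
  exact hT

end Pool.Agent.Results.MP_112ba8_nt.FullMainTerm
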