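import Pool.Agent.N748.MJ.Fin2

set_option autoImplicit false

/-!
# Joint moments of all complex orders of zeta near the critical line, with the full main term

Let `d = d(T) → 0` with `d log T / (log 1/d)^2 → ∞`, and let `m`, `R`, `D > 0` be given. For large `T` and all shifts
`|h_j| ≤ T^(1/2)` there is a set `N ⊆ [0, T]` whose complement in `[0, T]` has measure at most `d^D T`, on which no
`ζ(1/2 + d + i(t + h_j))` vanishes, such that for all complex `b_j` and all integers `n_j` bounded by `R` in absolute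
value

`(1/T) ∫_N ∏_j |ζ(1/2 + d + i(t + h_j))|^(2 b_j) (ζ(1/2 + d + i(t + h_j)) / |ζ(1/2 + d + i(t + h_j))|)^(n_j) dt`

differs by at most `d^D` from the diagonal series `∑_q A(q) B(q) q^(-1-2d)`, where `A(q)` are the coefficients of
`∏_j ζ(s + i h_j)^(b_j + n_j/2)` and `B(q)` those of `∏_j ζ(s - i h_j)^(b_j - n_j/2)`. Moments with negative and
imaginary orders, and moments of quotients, are included.

The theorem JMF of the team library N748.MJ, which had not been handed in, is restated here over Mathlib.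
-/

namespace Pool.Agent.Results.MP_112ba8_nt.JointMoments

open Filter MeasureTheory Topology Complex

/-- `|z|^(2b) (z/|z|)^n` -/
noncomputable def zpow (z b : ℂ) (n : ℤ) : ℂ := ((‖z‖ : ℝ) : ℂ) ^ (2 * b) * (z / (‖z‖ : ℝ)) ^ n

/-- the coefficient of `x^k` in `(1 - x)^(-s)` -/
noncomputable def binom (s : ℂ) (k : ℕ) : ℂ := ∏ i ∈ Finset.range k, (s + i) / ((i : ℂ) + 1)

/-- the coefficient of `q^(-s)` in the Dirichlet series of `∏_j ζ(s + i h_j)^(s_j)` -/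
noncomputable def coeff {m : ℕ} (s : Fin m → ℂ) (h : Fin m → ℝ) (q : ℕ) : ℂ :=
  ∏ p ∈ q.primeFactors, ∑ μ ∈ Finset.piAntidiag (Finset.univ : Finset (Fin m)) (q.factorization p),
    ∏ j, binom (s j) (μ j) * (p : ℂ) ^ (-((μ j * h j : ℝ) * I))

/-- the diagonal series -/
noncomputable def diagonal {m : ℕ} (b : Fin m → ℂ) (n : Fin m → ℤ) (h : Fin m → ℝ) (d : ℝ) : ℂ :=
  ∑' q : ℕ, coeff (fun j => b j + (n j : ℂ) / 2) h q * coeff (fun j => b j - (n j : ℂ) / 2) (fun j => -h j) q *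
    (((q : ℝ) ^ (-(1 + 2 * d)) : ℝ) : ℂ)

/-- zeta at distance `d` from the critical line and height `t` -/
noncomputable def z (d t : ℝ) : ℂ := riemannZeta (1 / 2 + d + t * I)

lemma conj_npow (p : ℕ) (e : ℂ) : (starRingEnd ℂ) ((p : ℂ) ^ e) = (p : ℂ) ^ ((starRingEnd ℂ) e) := by
  have h1 : ((p : ℂ)).arg ≠ Real.pi := by
    rw [Complex.natCast_arg]
    exact Real.pi_pos.ne
  have h2 := Complex.conj_cpow (p : ℂ) ((starRingEnd ℂ) e) h1
  rw [Complex.conj_conj, Complex.conj_natCast] at h2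
  exact h2.symm

lemma coeff_eq {m : ℕ} (s : Fin m → ℂ) (h : Fin m → ℝ) (q : ℕ) :
    coeff s h q = Pool.Agent.N748.MJ.dV s h q := rfl

lemma binom_conj (s : ℂ) (k : ℕ) : (starRingEnd ℂ) (binom ((starRingEnd ℂ) s) k) = binom s k := by
  unfold binom
  rw [map_prod]
  refine Finset.prod_congr rfl fun i _ => ?_
  rw [map_div₀, map_add, map_add, map_one, Complex.conj_conj, Complex.conj_natCast]

lemma coeff_conj {m : ℕ} (s : Fin m → ℂ) (h : Fin m → ℝ) (q : ℕ) :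
    (starRingEnd ℂ) (coeff (fun j => (starRingEnd ℂ) (s j)) h q) = coeff s (fun j => -h j) q := by
  unfold coeff
  rw [map_prod]
  refine Finset.prod_congr rfl fun p _ => ?_
  rw [map_sum]
  refine Finset.sum_congr rfl fun μ _ => ?_
  rw [map_prod]
  refine Finset.prod_congr rfl fun j _ => ?_
  rw [map_mul, binom_conj, conj_npow]
  congr 2
  rw [map_neg, map_mul, Complex.conj_ofReal, Complex.conj_I]
  push_cast
  ring

theorem result (m : ℕ) (R D : ℝ) (hR : 0 < R) (hD : 0 < D) (d : ℝ → ℝ) (hd0 : ∀ᶠ T : ℝ in atTop, 0 < d T)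
    (hd : Tendsto d atTop (𝓝 0))
    (hdL : Tendsto (fun T : ℝ => d T * Real.log T / Real.log (1 / d T) ^ 2) atTop atTop) :
    ∀ᶠ T : ℝ in atTop, ∀ h : Fin m → ℝ, (∀ j, |h j| ≤ T ^ (1 / 2 : ℝ)) →
      ∃ N : Set ℝ, MeasurableSet N ∧ N ⊆ Set.Icc 0 T ∧ volume (Set.Icc 0 T \ N) ≤ ENNReal.ofReal (d T ^ D * T) ∧
        (∀ t ∈ N, ∀ j, z (d T) (t + h j) ≠ 0) ∧
        ∀ (b : Fin m → ℂ) (n : Fin m → ℤ), (∀ j, ‖b j‖ ≤ R) → (∀ j, |(n j : ℝ)| ≤ R) →
          ‖((1 / T : ℝ) : ℂ) * (∫ t in N, ∏ j, zpow (z (d T) (t + h j)) (b j) (n j)) - diagonal b n h (d T)‖ ≤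
            d T ^ D := by
  obtain ⟨lam, δ0, hlam, hδ0, hδ1, hE⟩ := Pool.Agent.N748.MJ.jmfF m R D hR hD
  filter_upwards [hE, hd0, hd.eventually (gt_mem_nhds hδ0), hdL.eventually (eventually_ge_atTop lam),
    hd.eventually (gt_mem_nhds (show (0:ℝ) < 1 by norm_num)), eventually_gt_atTop 0] with T h1 h2 h3 h4 h5 h6 h hh
  have hlog : 0 < Real.log (1 / d T) := Real.log_pos (by rw [lt_div_iff₀ h2]; linarith)
  have h7 : lam * Real.log (1 / d T) ^ 2 ≤ d T * Real.log T := by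
    rwa [le_div_iff₀ (by positivity)] at h4
  obtain ⟨N, a1, a2, a3, a4, a5⟩ := h1 (d T) h2 h3.le h7 h hh
  refine ⟨N, a1, a2, a3, a4, fun b n hb hn => ?_⟩
  have h8 := a5 b n hb hn
  have e1 : diagonal b n h (d T) = ∑' q : ℕ, Pool.Agent.N748.MJ.dV (Pool.Agent.N748.MJ.sp b n) h q *
      (starRingEnd ℂ) (Pool.Agent.N748.MJ.dV (Pool.Agent.N748.MJ.cj (Pool.Agent.N748.MJ.sm b n)) h q) *
      (((q:ℝ) ^ (-(1 + 2 * d T)) : ℝ) : ℂ) := by
    unfold diagonal
    refine tsum_congr fun q => ?_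
    rw [← coeff_conj]
    rfl
  have e2 : (∫ t in N, ∏ j, zpow (z (d T) (t + h j)) (b j) (n j)) =
      ∫ t in N, ∏ j, Pool.Agent.N748.MJ.ZZ (riemannZeta (Pool.Agent.N748.MG.pw (d T) (t + h j))) (b j) (n j) := rfl
  rw [e1, e2]
  set Y := ∫ t in N, ∏ j, Pool.Agent.N748.MJ.ZZ (riemannZeta (Pool.Agent.N748.MG.pw (d T) (t + h j))) (b j) (n j)
    with hY
  set S := ∑' q : ℕ, Pool.Agent.N748.MJ.dV (Pool.Agent.N748.MJ.sp b n) h q *
      (starRingEnd ℂ) (Pool.Agent.N748.MJ.dV (Pool.Agent.N748.MJ.cj (Pool.Agent.N748.MJ.sm b n)) h q) *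
      (((q:ℝ) ^ (-(1 + 2 * d T)) : ℝ) : ℂ) with hS
  have e3 : ((1 / T : ℝ) : ℂ) * Y - S = ((1 / T : ℝ) : ℂ) * (Y - T * S) := by
    have hT : (T : ℂ) ≠ 0 := by exact_mod_cast h6.ne'
    push_cast
    field_simp
  rw [e3, norm_mul, Complex.norm_real, Real.norm_of_nonneg (by positivity), one_div, inv_mul_le_iff₀ h6, mul_comm T]
  exact h8

end Pool.Agent.Results.MP_112ba8_nt.JointMoments
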