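import Pool.Agent.N748.MJ.Fin

set_option autoImplicit false

/-!
# The local form of the moments of zeta of every order near the critical line: modulus and argument

Let `d = d(T) → 0` with `d log T / (log 1/d)^2 → ∞`, and let `k` be real. The moment of order `2k` of `ζ(1/2 + d + it)` is
dominated by the heights `t` at which `|ζ|` is about `(2d)^(-k)`. For every measurable function `F` of a complex variable
which is continuous off a null set, with `|F(z)| (1 + log² |z|)` and `|F(z)| |z|^(2k)` bounded,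

`√(π log 1/(2d)) (2d)^(k²) (1/T) ∫_0^T |ζ(1/2 + d + it)|^(2k) F((2d)^k ζ(1/2 + d + it)) dt`

converges to `a(k) / (2π)` times the integral of `F` with respect to the Haar measure `|z|^(-2) dx dy` of the
multiplicative group of the complex numbers; `a(k)` is the arithmetic factor of the moment conjecture. For `k = 0` this is
a local limit theorem for the values of zeta; nothing is left out of `[0, T]`.

The theorem LD2 of the team library N748.MJ, which had not been handed in, is restated here over Mathlib.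
-/

namespace Pool.Agent.Results.MP_112ba8_nt.LocalMoments

open Filter MeasureTheory Topology

/-- the arithmetic factor of the moment conjecture,
`a(k) = ∏_p (1 - 1/p)^{k²} Σ_m (k (k+1) ... (k+m-1) / m!)² p^{-m}` -/
noncomputable def ak (k : ℝ) : ℝ :=
  ∏' p : Nat.Primes, ((1 - 1 / (p : ℝ)) ^ (k ^ 2) *
    ∑' m : ℕ, (∏ i ∈ Finset.range m, (k + i) / ((i : ℝ) + 1)) ^ 2 * (1 / (p : ℝ)) ^ m)

/-- zeta at distance `d` from the critical line and height `t` -/
noncomputable def z (d t : ℝ) : ℂ := riemannZeta (1 / 2 + d + t * Complex.I)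

theorem result (d : ℝ → ℝ) (hd0 : ∀ᶠ T : ℝ in atTop, 0 < d T) (hd : Tendsto d atTop (𝓝 0))
    (hdL : Tendsto (fun T : ℝ => d T * Real.log T / Real.log (1 / d T) ^ 2) atTop atTop) (k : ℝ)
    (F : ℂ → ℝ) (hm : Measurable F) (hc : ∃ S : Set ℂ, volume S = 0 ∧ ∀ w, w ≠ 0 → w ∉ S → ContinuousAt F w)
    (hb : ∃ C : ℝ, ∀ w, w ≠ 0 → |F w| * (1 + Real.log ‖w‖ ^ 2) ≤ C ∧ |F w| * ‖w‖ ^ (2 * k) ≤ C) :
    Tendsto (fun T : ℝ => Real.sqrt (Real.pi * Real.log (1 / (2 * d T))) * (2 * d T) ^ (k ^ 2) *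
      ((1 / T) * ∫ t in (0:ℝ)..T, ‖z (d T) t‖ ^ (2 * k) * F ((((2 * d T) ^ k : ℝ) : ℂ) * z (d T) t))) atTop
      (𝓝 (ak k / (2 * Real.pi) * ∫ w : ℂ, ‖w‖ ^ (-2 : ℝ) * F w)) := by
  obtain ⟨S, hS, hcS⟩ := hc
  obtain ⟨C, hC⟩ := hb
  -- the value at zero does not matter
  set h : ℂ → ℝ := fun w => ‖w‖ ^ (2 * k) * (if w = 0 then 0 else F w) with hh
  have hm0 : Measurable fun w : ℂ => if w = 0 then (0:ℝ) else F w :=
    Measurable.ite (measurableSet_singleton (0:ℂ)) measurable_const hm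
  have hmh : Measurable h := (measurable_norm.pow_const (2 * k)).mul hm0
  have hcont : ∀ w, w ≠ 0 → w ∉ S → ContinuousAt h w := by
    intro w hw hwS
    have h1 : ContinuousAt (fun w : ℂ => if w = 0 then (0:ℝ) else F w) w := by
      refine (hcS w hw hwS).congr ?_
      filter_upwards [isOpen_ne.mem_nhds hw] with u hu
      rw [if_neg hu]
    exact (continuousAt_id.norm.rpow_const (Or.inl (norm_ne_zero_iff.2 hw))).mul h1
  have hC0 : 0 ≤ C := by
    have h1 := (hC 1 one_ne_zero).1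
    have h2 : 0 ≤ |F 1| * (1 + Real.log ‖(1:ℂ)‖ ^ 2) := by positivity
    linarith
  have hbd : ∀ w, |h w| ≤ C := by
    intro w
    rw [hh]
    simp only
    rw [abs_mul, abs_of_nonneg (Real.rpow_nonneg (norm_nonneg w) _), mul_comm]
    split_ifs with hw
    · simpa using hC0
    · exact (hC w hw).2
  have hdec : ∀ w, w ≠ 0 → |h w| * (1 + Real.log ‖w‖ ^ 2) ≤ C * ‖w‖ ^ (2 * k) := by
    intro w hw
    rw [hh]
    simp only
    rw [if_neg hw, abs_mul, abs_of_nonneg (Real.rpow_nonneg (norm_nonneg w) _)]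
    have h1 := (hC w hw).1
    have h2 : 0 ≤ ‖w‖ ^ (2 * k) := Real.rpow_nonneg (norm_nonneg w) _
    nlinarith
  have key := Pool.Agent.N748.MJ.ld2F d ⟨hd0, hd, hdL⟩ k h hmh ⟨S, hS, hcont⟩ ⟨C, hbd⟩ ⟨C, hdec⟩
  rw [Pool.Agent.N748.MG.aC_re] at key
  have hae0 : ∀ᵐ w : ℂ, w ≠ 0 := by
    rw [ae_iff]
    simp
  have e1 : ∫ w : ℂ, ‖w‖ ^ (-(2 * k) - 2) * h w = ∫ w : ℂ, ‖w‖ ^ (-2 : ℝ) * F w := by
    refine integral_congr_ae ?_
    filter_upwards [hae0] with w hw
    rw [hh]
    simp only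
    rw [if_neg hw, ← mul_assoc, ← Real.rpow_add (norm_pos_iff.2 hw)]
    congr 2
    ring
  rw [e1] at key
  have e2 : Pool.Agent.N748.MG.akR k = ak k := rfl
  rw [e2] at key
  refine key.congr' ?_
  filter_upwards [hd0, hd.eventually (gt_mem_nhds (show (0:ℝ) < 1 / 16 by norm_num))] with T hT hT2
  have h3 : (0:ℝ) < 2 * d T := by linarith
  have e3 : ∫ t in (0:ℝ)..T, h ((((2 * d T) ^ k : ℝ) : ℂ) * riemannZeta (Pool.Agent.N748.MG.pw (d T) t)) =
      (2 * d T) ^ (2 * k ^ 2) *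
        ∫ t in (0:ℝ)..T, ‖z (d T) t‖ ^ (2 * k) * F ((((2 * d T) ^ k : ℝ) : ℂ) * z (d T) t) := by
    rw [← intervalIntegral.integral_const_mul]
    refine intervalIntegral.integral_congr_ae ?_
    filter_upwards [Pool.Agent.N748.MG.TMC.ae_ne (show d T < 1 / 2 by linarith)] with t ht _
    have hz : z (d T) t = riemannZeta (Pool.Agent.N748.MG.pw (d T) t) := rfl
    have hz0 : z (d T) t ≠ 0 := by
      intro h0
      apply ht
      unfold Pool.Agent.N748.MG.mz
      rw [← hz, h0, norm_zero]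
    have h4 : (0:ℝ) < (2 * d T) ^ k := Real.rpow_pos_of_pos h3 _
    have hne : (((2 * d T) ^ k : ℝ) : ℂ) * z (d T) t ≠ 0 :=
      mul_ne_zero (by exact_mod_cast h4.ne') hz0
    rw [← hz, hh]
    simp only
    rw [if_neg hne, norm_mul, Complex.norm_real, Real.norm_of_nonneg h4.le,
      Real.mul_rpow h4.le (norm_nonneg _), ← Real.rpow_mul h3.le]
    have e5 : k * (2 * k) = 2 * k ^ 2 := by ring
    rw [e5]
    ring
  rw [e3]
  have e6 : (2 * d T) ^ (k ^ 2) = (2 * d T) ^ (-(k ^ 2)) * (2 * d T) ^ (2 * k ^ 2) := by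
    rw [← Real.rpow_add h3]
    congr 1
    ring
  rw [e6]
  ring

end Pool.Agent.Results.MP_112ba8_nt.LocalMoments
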