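import Pool.Agent.H6Z.Fz
import Pool.Agent.Results.MP_112ba8_nt.TwoFactorsOnTheLine

set_option autoImplicit false

/-!
# Moments of all orders between two and four with two factors ON the critical line, without truncation

Let `1 ≤ k < 2` be real, `d = d(T) ≤ (log T)^(-c)` for some `c > 0` and `d log T / (log 1/d)^2 → ∞` (for instance
`d = (log log T)^3 / log T`). Then the mean over `[0, T]` of

`|ζ(1/2 + it)|² |ζ(1/2 + d + it)|^(2k-2)`

is asymptotically `4^(k-1) a(k) (2d)^(1-k²) log T`, with the arithmetic factor `a(k)` of the moment conjecture. No heights are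
left out.

Proof. The same mean over the heights with `|ζ(1/2 + d + it)| ≤ (2d)^(-V)` is known for all `V > k` from
`MP_112ba8_nt.TwoFactorsOnTheLine` (library engine N748.MO). The contribution of the other heights is at most
`(2d)^(2V(2-k))` times the sum of the fourth moments of zeta on the critical line and on the line at distance `d`, by the
inequality between the arithmetic and the geometric mean; the fourth moment on the second line is `O(T d^(-4))`
(`Pool.Agent.H6Z.Fz`), and `V` may be taken as large as we please.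
-/

namespace Pool.Agent.Results.MP_852da8_nt.TwoFactorsBelowFour

open MeasureTheory Filter Topology

/-- the arithmetic factor of the moment conjecture,
`a(k) = ∏_p (1 - 1/p)^{k²} Σ_m (k (k+1) ... (k+m-1) / m!)² p^{-m}` -/
noncomputable def ak (k : ℝ) : ℝ :=
  ∏' p : Nat.Primes, ((1 - 1 / (p : ℝ)) ^ (k ^ 2) *
    ∑' m : ℕ, (∏ i ∈ Finset.range m, (k + i) / ((i : ℝ) + 1)) ^ 2 * (1 / (p : ℝ)) ^ m)

/-- the modulus of zeta on the critical line at height `t` -/
noncomputable def z0 (t : ℝ) : ℝ := ‖riemannZeta (1 / 2 + t * Complex.I)‖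

/-- the modulus of zeta at distance `d` from the critical line and height `t` -/
noncomputable def z (d t : ℝ) : ℝ := ‖riemannZeta (1 / 2 + d + t * Complex.I)‖

/-- the moment of order `2k` up to height `T` with two factors on the critical line and `2k - 2` factors at distance
`d` from it -/
noncomputable def moment (k d T : ℝ) : ℝ := (1 / T) * ∫ t in (0:ℝ)..T, z0 t ^ 2 * z d t ^ (2 * (k - 1))

lemma z0_eq (t : ℝ) : z0 t = Pool.Agent.H6Z.Fz.zf 0 t := by
  unfold z0 Pool.Agent.H6Z.Fz.zf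
  simp

lemma z0_cont : Continuous z0 := by
  have h := Pool.Agent.H6Z.Fz.zf_cont (show (0:ℝ) < 1 / 2 by norm_num)
  have e : z0 = Pool.Agent.H6Z.Fz.zf 0 := funext z0_eq
  rw [e]
  exact h

lemma z_cont {d : ℝ} (hd : d < 1 / 2) : Continuous (z d) := Pool.Agent.H6Z.Fz.zf_cont hd

lemma z0_nonneg (t : ℝ) : 0 ≤ z0 t := norm_nonneg _

lemma z_nonneg (d t : ℝ) : 0 ≤ z d t := norm_nonneg _

/-- the pointwise bound outside the level -/
lemma ptw {x y l κ : ℝ} (hl : 0 < l) (hκ1 : κ < 1) (hy : l ≤ y) :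
    x ^ 2 * y ^ (2 * κ) ≤ l ^ (-(2 * (1 - κ))) * (x ^ 4 + y ^ 4) := by
  have hy0 : 0 < y := hl.trans_le hy
  obtain ⟨q, hq⟩ : ∃ q : ℝ, q = l ^ (-(2 * (1 - κ))) := ⟨_, rfl⟩
  have hq0 : 0 < q := by rw [hq]; positivity
  rw [← hq]
  have h1 : y ^ (2 * κ) ≤ q * y ^ 2 := by
    have e : y ^ (2 * κ) = y ^ (-(2 * (1 - κ))) * y ^ 2 := by
      rw [← Real.rpow_natCast y 2, ← Real.rpow_add hy0]
      congr 1
      push_cast
      ring
    have h2 : y ^ (-(2 * (1 - κ))) ≤ l ^ (-(2 * (1 - κ))) := Real.rpow_le_rpow_of_nonpos hl hy (by linarith)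
    rw [e, hq]
    exact mul_le_mul_of_nonneg_right h2 (sq_nonneg _)
  calc x ^ 2 * y ^ (2 * κ) ≤ x ^ 2 * (q * y ^ 2) := mul_le_mul_of_nonneg_left h1 (sq_nonneg _)
    _ = q * (x ^ 2 * y ^ 2) := by ring
    _ ≤ q * (x ^ 4 + y ^ 4) := by
        refine mul_le_mul_of_nonneg_left ?_ hq0.le
        nlinarith [sq_nonneg (x ^ 2 - y ^ 2), sq_nonneg (x ^ 2), sq_nonneg (y ^ 2)]

/-- **Theorem.** Let `c > 0`, `d(T) > 0` and `d(T) ≤ (log T)^(-c)` for large `T`, `d log T / (log 1/d)^2 → ∞`, and `1 ≤ k < 2`.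
The mean of `|ζ(1/2 + it)|² |ζ(1/2 + d + it)|^(2k-2)` over `[0, T]` is asymptotically `4^(k-1) a(k) (2d)^(1-k²) log T`. -/
theorem result (c : ℝ) (hc : 0 < c) (d : ℝ → ℝ) (hd0 : ∀ᶠ T : ℝ in atTop, 0 < d T)
    (hdc : ∀ᶠ T : ℝ in atTop, d T ≤ Real.log T ^ (-c))
    (hdL : Tendsto (fun T : ℝ => d T * Real.log T / Real.log (1 / d T) ^ 2) atTop atTop) (k : ℝ) (hk : 1 ≤ k)
    (hk2 : k < 2) :
    Tendsto (fun T : ℝ => moment k (d T) T / (4 ^ (k - 1) * ak k * (2 * d T) ^ (1 - k ^ 2) * Real.log T)) atTop (𝓝 1) := by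
  obtain ⟨κ, hκ⟩ : ∃ κ : ℝ, κ = k - 1 := ⟨_, rfl⟩
  have hκ0 : 0 ≤ κ := by rw [hκ]; linarith
  have hκ1 : κ < 1 := by rw [hκ]; linarith
  have h1κ : 0 < 1 - κ := by linarith
  obtain ⟨E, hE⟩ : ∃ E : ℝ, E = max (4 / c) 4 + 1 := ⟨_, rfl⟩
  have hE4 : 4 ≤ E - 1 := by rw [hE]; linarith [le_max_right (4 / c) 4]
  have hEc : 4 / c ≤ E - 1 := by rw [hE]; linarith [le_max_left (4 / c) 4]
  obtain ⟨V, hV⟩ : ∃ V : ℝ, V = max 3 (E / (2 * (1 - κ))) := ⟨_, rfl⟩
  have hV3 : 3 ≤ V := by rw [hV]; exact le_max_left _ _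
  have hVE : E ≤ V * (2 * (1 - κ)) := by
    have h1 : E / (2 * (1 - κ)) ≤ V := by rw [hV]; exact le_max_right _ _
    rwa [div_le_iff₀ (by positivity)] at h1
  have hmain := (MP_112ba8_nt.TwoFactorsOnTheLine.result c hc d hd0 hdc hdL k hk).1 V (by linarith)
  obtain ⟨C4, hC4, h4⟩ := Pool.Agent.H6Z.Fz.shifted
  have hA := MP_112ba8_nt.TwoFactorsOnTheLine.adm hc hd0 hdc hdL
  have hak : 0 < ak k := (Pool.Agent.N748.MG.aC_akR k).1
  -- the tail
  have htail : Tendsto (fun T : ℝ => 2 ^ E * ((2 + C4) / (4 ^ (k - 1) * ak k)) * d T) atTop (𝓝 0) := by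
    have := hA.toAd.t0.const_mul (2 ^ E * ((2 + C4) / (4 ^ (k - 1) * ak k)))
    simpa using this
  have hup : ∀ᶠ T : ℝ in atTop,
      MP_112ba8_nt.TwoFactorsOnTheLine.M k ((2 * d T) ^ (-V)) (d T) T /
          (4 ^ (k - 1) * ak k * (2 * d T) ^ (1 - k ^ 2) * Real.log T) ≤
        moment k (d T) T / (4 ^ (k - 1) * ak k * (2 * d T) ^ (1 - k ^ 2) * Real.log T) ∧
      moment k (d T) T / (4 ^ (k - 1) * ak k * (2 * d T) ^ (1 - k ^ 2) * Real.log T) ≤
        MP_112ba8_nt.TwoFactorsOnTheLine.M k ((2 * d T) ^ (-V)) (d T) T /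
          (4 ^ (k - 1) * ak k * (2 * d T) ^ (1 - k ^ 2) * Real.log T) +
          2 ^ E * ((2 + C4) / (4 ^ (k - 1) * ak k)) * d T := by
    have hlamT := hA.toAd.tL.eventually_ge_atTop (2 ^ 17)
    filter_upwards [hd0, hdc, hA.toAd.t0.eventually (gt_mem_nhds (show (0:ℝ) < 1 / 16 by norm_num)), h4, hlamT,
      eventually_ge_atTop (1000:ℝ), Real.tendsto_log_atTop.eventually_ge_atTop 1] with T hdT hdcT hd16 h4T hlam hT hL1
    obtain ⟨δ, hδ⟩ : ∃ δ : ℝ, δ = d T := ⟨_, rfl⟩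
    rw [← hδ] at hdT hdcT hd16 hlam ⊢
    obtain ⟨L, hL⟩ : ∃ L : ℝ, L = Real.log T := ⟨_, rfl⟩
    rw [← hL] at hdcT hlam hL1 ⊢
    have hT0 : 0 < T := by linarith
    have hL0 : 0 < L := by linarith
    have hl1 : 1 ≤ Real.log (1 / δ) := Pool.Agent.N748.MG.log_inv_ge hdT hd16.le
    have hrange : 2 ^ 17 / Real.log T ≤ δ := by
      rw [← hL, div_le_iff₀ hL0]
      rw [le_div_iff₀ (by positivity)] at hlam
      nlinarith
    have hd2 : δ < 1 / 2 := by linarith
    obtain ⟨m, hm⟩ : ∃ m : ℝ, m = 4 ^ (k - 1) * ak k * (2 * δ) ^ (1 - k ^ 2) * L := ⟨_, rfl⟩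
    have h4k : (0:ℝ) < 4 ^ (k - 1) := by positivity
    have h2δ : 0 < 2 * δ := by linarith
    have hm0 : 0 < m := by rw [hm]; positivity
    rw [← hm]
    obtain ⟨S, hS⟩ : ∃ S : Set ℝ, S = {t : ℝ | t ∈ Set.Icc 0 T ∧ z δ t ≤ (2 * δ) ^ (-V)} := ⟨_, rfl⟩
    have hzc := z_cont hd2
    have hSm : MeasurableSet S := by
      rw [hS]
      exact measurableSet_Icc.inter (measurableSet_le hzc.measurable measurable_const)
    have hSs : S ⊆ Set.Icc 0 T := by rw [hS]; exact fun t ht => ht.1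
    have hfc : Continuous fun t => z0 t ^ 2 * z δ t ^ (2 * (k - 1)) :=
      (z0_cont.pow 2).mul (hzc.rpow_const fun t => Or.inr (by linarith))
    have hfi : IntegrableOn (fun t => z0 t ^ 2 * z δ t ^ (2 * (k - 1))) (Set.Icc 0 T) := hfc.integrableOn_Icc
    have hfn : ∀ t, 0 ≤ z0 t ^ 2 * z δ t ^ (2 * (k - 1)) := fun t =>
      mul_nonneg (sq_nonneg _) (Real.rpow_nonneg (z_nonneg _ _) _)
    have hsplit : ∫ t in (0:ℝ)..T, z0 t ^ 2 * z δ t ^ (2 * (k - 1)) =
        (∫ t in S, z0 t ^ 2 * z δ t ^ (2 * (k - 1))) +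
          ∫ t in Set.Icc 0 T \ S, z0 t ^ 2 * z δ t ^ (2 * (k - 1)) := by
      rw [intervalIntegral.integral_of_le hT0.le, ← integral_Icc_eq_integral_Ioc,
        ← setIntegral_union Set.disjoint_sdiff_right (measurableSet_Icc.diff hSm) (hfi.mono_set hSs)
          (hfi.mono_set Set.sdiff_subset), Set.union_sdiff_cancel hSs]
    have hM : MP_112ba8_nt.TwoFactorsOnTheLine.M k ((2 * δ) ^ (-V)) δ T =
        (1 / T) * ∫ t in S, z0 t ^ 2 * z δ t ^ (2 * (k - 1)) := by rw [hS]; rfl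
    have hmo : moment k δ T = MP_112ba8_nt.TwoFactorsOnTheLine.M k ((2 * δ) ^ (-V)) δ T +
        (1 / T) * ∫ t in Set.Icc 0 T \ S, z0 t ^ 2 * z δ t ^ (2 * (k - 1)) := by
      unfold moment
      rw [hsplit, hM, mul_add]
    have hnn : 0 ≤ ∫ t in Set.Icc 0 T \ S, z0 t ^ 2 * z δ t ^ (2 * (k - 1)) := integral_nonneg fun t => hfn t
    have hlow : 0 ≤ (1 / T) * ∫ t in Set.Icc 0 T \ S, z0 t ^ 2 * z δ t ^ (2 * (k - 1)) := by positivity
    -- the bound
    obtain ⟨q, hq⟩ : ∃ q : ℝ, q = ((2 * δ) ^ (-V)) ^ (-(2 * (1 - κ))) := ⟨_, rfl⟩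
    have hq0 : 0 < q := by rw [hq]; positivity
    have hqE : q ≤ (2 * δ) ^ E := by
      rw [hq, ← Real.rpow_mul h2δ.le]
      exact Real.rpow_le_rpow_of_exponent_ge h2δ (by linarith) (by linarith)
    have hgc : Continuous fun t => q * (z0 t ^ 4 + z δ t ^ 4) :=
      continuous_const.mul ((z0_cont.pow 4).add (hzc.pow 4))
    have hb1 : ∫ t in Set.Icc 0 T \ S, z0 t ^ 2 * z δ t ^ (2 * (k - 1)) ≤
        ∫ t in Set.Icc 0 T \ S, q * (z0 t ^ 4 + z δ t ^ 4) := by
      refine setIntegral_mono_on (hfi.mono_set Set.sdiff_subset) ((hgc.integrableOn_Icc).mono_set Set.sdiff_subset)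
        (measurableSet_Icc.diff hSm) fun t ht => ?_
      have h1 : (2 * δ) ^ (-V) ≤ z δ t := by
        by_contra hcon
        push Not at hcon
        exact ht.2 (by rw [hS]; exact ⟨ht.1, hcon.le⟩)
      rw [hq, ← hκ]
      exact ptw (Real.rpow_pos_of_pos h2δ _) hκ1 h1
    have hb2 : ∫ t in Set.Icc 0 T \ S, q * (z0 t ^ 4 + z δ t ^ 4) ≤ ∫ t in (0:ℝ)..T, q * (z0 t ^ 4 + z δ t ^ 4) := by
      rw [intervalIntegral.integral_of_le hT0.le, ← integral_Icc_eq_integral_Ioc]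
      refine setIntegral_mono_set hgc.integrableOn_Icc (Eventually.of_forall fun t => ?_)
        (Eventually.of_forall Set.sdiff_subset)
      have := z0_nonneg t
      have := z_nonneg δ t
      show 0 ≤ q * (z0 t ^ 4 + z δ t ^ 4)
      positivity
    have hb3 : ∫ t in (0:ℝ)..T, q * (z0 t ^ 4 + z δ t ^ 4) =
        q * ((∫ t in (0:ℝ)..T, z0 t ^ 4) + ∫ t in (0:ℝ)..T, z δ t ^ 4) := by
      have i1 : IntervalIntegrable (fun t => z0 t ^ 4) volume 0 T := (z0_cont.pow 4).intervalIntegrable _ _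
      have i2 : IntervalIntegrable (fun t => z δ t ^ 4) volume 0 T := (hzc.pow 4).intervalIntegrable _ _
      rw [intervalIntegral.integral_const_mul, intervalIntegral.integral_add i1 i2]
    have hb4 : ∫ t in (0:ℝ)..T, z0 t ^ 4 ≤ T * L ^ 4 := by
      have := Pool.Agent.N748.MO.FT.main T hT
      rw [← hL] at this
      exact this
    have hb5 : ∫ t in (0:ℝ)..T, z δ t ^ 4 ≤ C4 * (T * (1 / δ) ^ 4) := by
      have h5 := h4T δ 0 hrange hd16.le (by rw [abs_zero]; positivity)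
      simp only [add_zero] at h5
      exact h5
    -- powers of `δ`
    have hδ1 : δ ≤ 1 := by linarith
    have hLc : L ^ 4 ≤ δ ^ (-(E - 1)) := by
      have h6 : L ≤ δ ^ (-(1 / c)) := by
        have h7 : (L ^ (-c)) ^ (-(1 / c)) ≤ δ ^ (-(1 / c)) :=
          Real.rpow_le_rpow_of_nonpos hdT hdcT (by
            have : 0 < 1 / c := by positivity
            linarith)
        have h8 : (L ^ (-c)) ^ (-(1 / c)) = L := by
          rw [← Real.rpow_mul hL0.le]
          have : -c * -(1 / c) = 1 := by field_simp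
          rw [this, Real.rpow_one]
        rwa [h8] at h7
      calc L ^ 4 ≤ (δ ^ (-(1 / c))) ^ 4 := pow_le_pow_left₀ hL0.le h6 4
        _ = δ ^ (-(4 / c)) := by
            rw [← Real.rpow_natCast, ← Real.rpow_mul hdT.le]
            congr 1
            push_cast
            ring
        _ ≤ δ ^ (-(E - 1)) := Real.rpow_le_rpow_of_exponent_ge hdT hδ1 (by linarith)
    have hδ4 : (1 / δ) ^ 4 ≤ δ ^ (-(E - 1)) := by
      calc (1 / δ) ^ 4 = δ ^ (-(4:ℝ)) := by
            rw [Real.rpow_neg hdT.le, one_div, inv_pow]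
            norm_num
        _ ≤ δ ^ (-(E - 1)) := Real.rpow_le_rpow_of_exponent_ge hdT hδ1 (by linarith)
    have hfin : (1 / T) * ∫ t in Set.Icc 0 T \ S, z0 t ^ 2 * z δ t ^ (2 * (k - 1)) ≤ 2 ^ E * (2 + C4) * δ := by
      have h9 : ∫ t in Set.Icc 0 T \ S, z0 t ^ 2 * z δ t ^ (2 * (k - 1)) ≤
          (2 * δ) ^ E * (T * ((2 + C4) * δ ^ (-(E - 1)))) := by
        refine (hb1.trans hb2).trans ?_
        rw [hb3]
        have h10 : (∫ t in (0:ℝ)..T, z0 t ^ 4) + ∫ t in (0:ℝ)..T, z δ t ^ 4 ≤ T * ((2 + C4) * δ ^ (-(E - 1))) := by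
          have h11 : T * L ^ 4 ≤ T * δ ^ (-(E - 1)) := mul_le_mul_of_nonneg_left hLc hT0.le
          have h12 : C4 * (T * (1 / δ) ^ 4) ≤ C4 * (T * δ ^ (-(E - 1))) := by gcongr
          have h13 : 0 ≤ T * δ ^ (-(E - 1)) := by positivity
          nlinarith
        calc q * ((∫ t in (0:ℝ)..T, z0 t ^ 4) + ∫ t in (0:ℝ)..T, z δ t ^ 4) ≤
              q * (T * ((2 + C4) * δ ^ (-(E - 1)))) := mul_le_mul_of_nonneg_left h10 hq0.le
          _ ≤ _ := mul_le_mul_of_nonneg_right hqE (by positivity)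
      have e5 : (2 * δ) ^ E * (T * ((2 + C4) * δ ^ (-(E - 1)))) = T * (2 ^ E * (2 + C4) * δ) := by
        rw [Real.mul_rpow (by norm_num) hdT.le]
        have e6 : δ ^ E * δ ^ (-(E - 1)) = δ := by
          rw [← Real.rpow_add hdT]
          have : E + -(E - 1) = 1 := by ring
          rw [this, Real.rpow_one]
        calc 2 ^ E * δ ^ E * (T * ((2 + C4) * δ ^ (-(E - 1)))) =
              T * (2 ^ E * (2 + C4) * (δ ^ E * δ ^ (-(E - 1)))) := by ring
          _ = _ := by rw [e6]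
      rw [e5] at h9
      calc (1 / T) * ∫ t in Set.Icc 0 T \ S, z0 t ^ 2 * z δ t ^ (2 * (k - 1)) ≤
            (1 / T) * (T * (2 ^ E * (2 + C4) * δ)) := mul_le_mul_of_nonneg_left h9 (by positivity)
        _ = _ := by field_simp
    have hmlow : 4 ^ (k - 1) * ak k ≤ m := by
      rw [hm]
      have h14 : 1 ≤ (2 * δ) ^ (1 - k ^ 2) :=
        Real.one_le_rpow_of_pos_of_le_one_of_nonpos h2δ (by linarith) (by nlinarith)
      have h15 : 1 ≤ (2 * δ) ^ (1 - k ^ 2) * L := by nlinarith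
      have h16 : 0 < 4 ^ (k - 1) * ak k := by positivity
      nlinarith
    constructor
    · rw [hmo]
      gcongr
      linarith
    · rw [hmo, add_div]
      have h17 : (1 / T) * (∫ t in Set.Icc 0 T \ S, z0 t ^ 2 * z δ t ^ (2 * (k - 1))) / m ≤
          2 ^ E * ((2 + C4) / (4 ^ (k - 1) * ak k)) * δ := by
        have h18 : 2 ^ E * ((2 + C4) / (4 ^ (k - 1) * ak k)) * δ = 2 ^ E * (2 + C4) * δ / (4 ^ (k - 1) * ak k) := by
          ring
        rw [h18]
        have h19 : 0 < 4 ^ (k - 1) * ak k := by positivity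
        exact div_le_div₀ (by positivity) hfin h19 hmlow
      linarith
  have hmain' : Tendsto (fun T : ℝ => MP_112ba8_nt.TwoFactorsOnTheLine.M k ((2 * d T) ^ (-V)) (d T) T /
      (4 ^ (k - 1) * ak k * (2 * d T) ^ (1 - k ^ 2) * Real.log T)) atTop (𝓝 1) := hmain
  have hR := hmain'.add htail
  rw [add_zero] at hR
  exact tendsto_of_tendsto_of_tendsto_of_le_of_le' hmain' hR (hup.mono fun T h => h.1) (hup.mono fun T h => h.2)

end Pool.Agent.Results.MP_852da8_nt.TwoFactorsBelowFour
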